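import Pool.Agent.H153Z.Stat.St

/-! A Lipschitz solution of the stationarity inclusion gives a stationary map. -/

set_option autoImplicit false

namespace Pool.Agent.H523Z.StatStat

open MeasureTheory Filter Topology Pool.Agent.H153Z.Planar Pool.Agent.H153Z.Stat
open scoped ContDiff NNReal

/-- The null-Lagrangian expression. -/
noncomputable def nl (v ψ : Pt → ℝ) (x : Pt) : ℝ :=
  fderiv ℝ v x (EuclideanSpace.single 0 1) * fderiv ℝ ψ x (EuclideanSpace.single 1 1)
    - fderiv ℝ v x (EuclideanSpace.single 1 1) * fderiv ℝ ψ x (EuclideanSpace.single 0 1)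

lemma two_le' : (2 : WithTop ℕ∞) ≤ ∞ := by
  change ((2 : ℕ∞) : WithTop ℕ∞) ≤ ((⊤ : ℕ∞) : WithTop ℕ∞)
  exact WithTop.coe_le_coe.mpr le_top

lemma two_le : (1 : WithTop ℕ∞) + 1 ≤ ∞ := by
  rw [one_add_one_eq_two]; exact two_le'

lemma dir_contDiff {ψ : Pt → ℝ} (hψ : ContDiff ℝ ∞ ψ) (e : Pt) :
    ContDiff ℝ 1 fun x => fderiv ℝ ψ x e :=
  (hψ.fderiv_right (m := 1) two_le).clm_apply contDiff_const

lemma dir_supp {ψ : Pt → ℝ} (hc : HasCompactSupport ψ) (e : Pt) :
    HasCompactSupport fun x => fderiv ℝ ψ x e :=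
  hc.fderiv_apply ℝ e

lemma integrable_term {v ψ : Pt → ℝ} {C : ℝ≥0} (hv : LipschitzWith C v) (hψ : ContDiff ℝ ∞ ψ)
    (hc : HasCompactSupport ψ) (a b : Pt) :
    Integrable fun x => fderiv ℝ v x a * fderiv ℝ ψ x b := by
  have h1 : Integrable fun x => fderiv ℝ ψ x b :=
    (dir_contDiff hψ b).continuous.integrable_of_hasCompactSupport (dir_supp hc b)
  refine h1.bdd_mul (c := C * ‖a‖) (measurable_fderiv_apply_const ℝ v a).aestronglyMeasurable
    (Eventually.of_forall fun x => ?_)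
  exact ((fderiv ℝ v x).le_opNorm a).trans
    (mul_le_mul_of_nonneg_right (norm_fderiv_le_of_lipschitz ℝ hv) (norm_nonneg _))

lemma integral_term {v ψ : Pt → ℝ} {C : ℝ≥0} (hv : LipschitzWith C v) (hψ : ContDiff ℝ ∞ ψ)
    (hc : HasCompactSupport ψ) (a b : Pt) :
    ∫ x, fderiv ℝ v x a * fderiv ℝ ψ x b = ∫ x, -(fderiv ℝ (fderiv ℝ ψ) x a b) * v x := by
  obtain ⟨D, hD⟩ := (dir_contDiff hψ b).lipschitzWith_of_hasCompactSupport (dir_supp hc b) (by simp)
  have h := hv.integral_lineDeriv_mul_eq (μ := volume) hD (dir_supp hc b) a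
  have h2 : ContDiff ℝ 1 (fderiv ℝ ψ) := hψ.fderiv_right (m := 1) two_le
  rw [show (∫ x, fderiv ℝ v x a * fderiv ℝ ψ x b) = ∫ x, lineDeriv ℝ v x a * fderiv ℝ ψ x b from
    integral_congr_ae ((hv.ae_differentiableAt (μ := volume)).mono fun x hx => by
      simp only [hx.lineDeriv_eq_fderiv]), h]
  refine integral_congr_ae (Eventually.of_forall fun x => ?_)
  have hd : DifferentiableAt ℝ (fun y => fderiv ℝ ψ y b) x :=
    (dir_contDiff hψ b).differentiable (by simp) x
  simp only [hd.lineDeriv_eq_fderiv, map_neg]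
  congr 2
  rw [fderiv_clm_apply (h2.differentiable (by simp) x) (differentiableAt_const b)]
  simp

lemma nl_integrable {v ψ : Pt → ℝ} {C : ℝ≥0} (hv : LipschitzWith C v) (hψ : ContDiff ℝ ∞ ψ)
    (hc : HasCompactSupport ψ) : Integrable (nl v ψ) :=
  (integrable_term hv hψ hc _ _).sub (integrable_term hv hψ hc _ _)

lemma nl_integral {v ψ : Pt → ℝ} {C : ℝ≥0} (hv : LipschitzWith C v) (hψ : ContDiff ℝ ∞ ψ)
    (hc : HasCompactSupport ψ) : ∫ x, nl v ψ x = 0 := by
  unfold nl
  rw [integral_sub (integrable_term hv hψ hc _ _) (integrable_term hv hψ hc _ _),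
    integral_term hv hψ hc, integral_term hv hψ hc, sub_eq_zero]
  refine integral_congr_ae (Eventually.of_forall fun x => ?_)
  have hs : IsSymmSndFDerivAt ℝ ψ x :=
    (hψ.contDiffAt (x := x)).isSymmSndFDerivAt (by simpa using two_le')
  simp only [hs.eq (EuclideanSpace.single 0 1) (EuclideanSpace.single 1 1)]

lemma nl_zero {v ψ : Pt → ℝ} {x : Pt} (hx : x ∉ tsupport ψ) : nl v ψ x = 0 := by
  have : fderiv ℝ ψ x = 0 := by
    have h0 : ψ =ᶠ[𝓝 x] fun _ => 0 := notMem_tsupport_iff_eventuallyEq.mp hx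
    rw [h0.fderiv_eq]; simp
  simp [nl, this]

lemma zero_of_sum {k : ℕ} {Ω : Set Pt} {φ : Pt → Fin k → ℝ} (hφ : IsTest Ω φ)
    (v : Fin k → Pt → ℝ) {C : ℝ≥0} (hv : ∀ i, LipschitzWith C (v i)) (s : ℝ) {h : Pt → ℝ}
    (hh : ∀ᵐ x ∂(volume.restrict Ω), h x = s * ∑ i, nl (v i) (fun y => φ y i) x) :
    IntegralZero Ω h := by
  obtain ⟨h1, h2, h3⟩ := hφ
  have hi : ∀ i, ContDiff ℝ ∞ fun y => φ y i := fun i => contDiff_pi.mp h1 i
  have hs : ∀ i, tsupport (fun y => φ y i) ⊆ tsupport φ := fun i =>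
    closure_mono fun y hy h0 => hy (by simp [h0])
  have hc : ∀ i, HasCompactSupport fun y => φ y i := fun i =>
    h2.of_isClosed_subset (isClosed_tsupport _) (hs i)
  have hint : Integrable fun x => s * ∑ i, nl (v i) (fun y => φ y i) x :=
    (integrable_finsetSum _ fun i _ => nl_integrable (hv i) (hi i) (hc i)).const_mul s
  refine ⟨(hint.integrableOn (s := Ω)).congr (hh.mono fun x hx => hx.symm), ?_⟩
  rw [integral_congr_ae hh, setIntegral_eq_integral_of_forall_compl_eq_zero, integral_const_mul,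
    integral_finsetSum _ fun i _ => nl_integrable (hv i) (hi i) (hc i)]
  · simp [fun i => nl_integral (hv i) (hi i) (hc i)]
  · intro x hx
    rw [Finset.sum_eq_zero fun i _ => nl_zero fun h => hx (h3 (hs i h)), mul_zero]

lemma jac_eq {ι : Type} [Fintype ι] {u : Pt → ι → ℝ} {x : Pt} (hu : DifferentiableAt ℝ u x)
    (i : ι) (j : Fin 2) :
    Jac u x i j = fderiv ℝ (fun y => u y i) x (EuclideanSpace.single j 1) := by
  unfold Jac
  rw [fderiv_pi (fun i => differentiableAt_pi.mp hu i)]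
  rfl

theorem thm_stat : S_stat := by
  rintro n f Ω W - ⟨L, hL⟩ hK
  have hv : ∀ r, LipschitzWith L fun y => W y r := fun r => by
    have := (LipschitzWith.eval r).comp hL
    rw [one_mul] at this
    exact this
  have key : ∀ᵐ x ∂(volume.restrict Ω), DifferentiableAt ℝ W x ∧
      Matrix.of (Jac W x) = stack f (Jac (fun y i => W y (.inl i)) x) := by
    filter_upwards [hK, ae_restrict_of_ae (hL.ae_differentiableAt (μ := volume))] with x hx hd
    obtain ⟨X, hX⟩ := hx
    have hu : DifferentiableAt ℝ (fun y (i : Fin n) => W y (.inl i)) x :=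
      differentiableAt_pi.mpr fun i => differentiableAt_pi.mp hd _
    have : Jac (fun y (i : Fin n) => W y (.inl i)) x = X := by
      funext i j
      rw [jac_eq hu, ← jac_eq hd]
      have := congrFun (congrFun hX (.inl i)) j
      simpa [stack] using this.symm
    exact ⟨hd, by rw [this, hX]⟩
  constructor
  · intro φ hφ
    refine zero_of_sum hφ (fun i y => W y (.inr (.inl i))) (fun i => hv _) (-1) ?_
    filter_upwards [key] with x ⟨hd, hx⟩
    have hφd : DifferentiableAt ℝ φ x := hφ.1.differentiable (by simp) x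
    rw [Finset.mul_sum]
    refine Finset.sum_congr rfl fun i _ => ?_
    have h0 := congrFun (congrFun hx (.inr (.inl i))) 0
    have h1 := congrFun (congrFun hx (.inr (.inl i))) 1
    simp [stack, J, Matrix.mul_apply, Fin.sum_univ_two] at h0 h1
    simp only [nl, ← jac_eq hd, ← jac_eq hφd, Fin.sum_univ_two, h0, h1]
    ring
  · intro Φ hΦ
    refine zero_of_sum hΦ (fun a y => W y (.inr (.inr a))) (fun i => hv _) 1 ?_
    filter_upwards [key] with x ⟨hd, hx⟩
    have hφd : DifferentiableAt ℝ Φ x := hΦ.1.differentiable (by simp) x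
    have h00 := congrFun (congrFun hx (.inr (.inr 0))) 0
    have h01 := congrFun (congrFun hx (.inr (.inr 0))) 1
    have h10 := congrFun (congrFun hx (.inr (.inr 1))) 0
    have h11 := congrFun (congrFun hx (.inr (.inr 1))) 1
    simp [stack, J, Matrix.mul_apply, Fin.sum_univ_two] at h00 h01 h10 h11
    simp only [nl, ← jac_eq hd, ← jac_eq hφd, Fin.sum_univ_two, h00, h01, h10, h11, one_mul]
    generalize Jac (fun x (i : Fin n) => W x (Sum.inl i)) x = X
    generalize grad f X = G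
    have : ∑ i, (G i 0 * (X i 0 * Jac Φ x 0 0 + X i 1 * Jac Φ x 1 0)
        + G i 1 * (X i 0 * Jac Φ x 0 1 + X i 1 * Jac Φ x 1 1))
        = (∑ i, X i 0 * G i 0) * Jac Φ x 0 0 + (∑ i, X i 1 * G i 0) * Jac Φ x 1 0
          + (∑ i, X i 0 * G i 1) * Jac Φ x 0 1 + (∑ i, X i 1 * G i 1) * Jac Φ x 1 1 := by
      simp only [Finset.sum_mul, ← Finset.sum_add_distrib]
      exact Finset.sum_congr rfl fun i _ => by ring
    rw [this]
    ring

end Pool.Agent.H523Z.StatStat
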